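import Mathlib
import Pool.Agent.V11175.HadInst

/-!
# Hadamard matrices of every even order in doubly logarithmic dimension

Let `n ≥ 4` and `m = 2 ⌊n/2⌋`. There is an `n`-dimensional Hadamard matrix of order `2 t`

* if `t` is a sum of at most `2 ^ (m - 3)` powers of two, in particular if `t < 2 ^ (2 ^ (m - 3))`, and
* if `t ≤ 2 ^ (n - 2)` (this adds to the first family only `n = 5`, `t = 7`),

and of every order that is a product of such orders. For `n = 4` these are the orders `2 ^ a + 2 ^ b`, `a, b ≥ 1`, and
their products; for `n = 6` all even orders below `512` are among them, for `n = 8` all below `2 ^ 33`.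

First construction (`n` even): in the cyclic group of order `2 t` the members of Golay pairs of lengths the binary digits
of `t` are placed on the even and on the odd elements of consecutive intervals, so that the sum of the autocorrelations of
the signed sets vanishes. The entry at `(i_1, ..., i_n)` is the product of the sign at `x = i_1 + ... + i_n`, of the
characters `(-1)^{c_q(x) i_q}`, where the word `(c_q(x))_q` of a linear code of dimension `n - 3` determines the interval
of `x`, and of `(-1)^{i_p i_q}` over the edges `{p, q}` of a graph.

The same construction gives an `n`-dimensional Hadamard matrix of order `2 |G|` for all `n ≥ 4` from four `±1` functions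
on a finite abelian group `G` with vanishing total autocorrelation (the ingredients of the Goethals-Seidel array, e.g.
Williamson matrices), in particular the orders `22` and `46`.

Second construction: the elements of the index set get different codes of `n - 1` bits, the codes of `2 y` and `2 y + 1`
being complementary, so that every bit is balanced; the entry at `(i_1, ..., i_n)` is
`∏_{p < q} (-1)^{B_{pq}(i_p) B_{qp}(i_q)}`, where `B_{pq}`, `q ≠ p`, run through the `n - 1` bits.
-/

set_option autoImplicit false

namespace Pool.Agent.Results.MP_afadd1_co.LargeDimensions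

open Pool.Agent.V11175.Had

/-- For all `n ≥ 4`: (1) if each member `t` of a nonempty list satisfies `t ≤ 2 ^ (n - 2)` or is the sum of a nonempty
list of at most `2 ^ (2 ⌊n/2⌋ - 3)` powers of two, then there is an `n`-dimensional Hadamard matrix of order the product
of the numbers `2 t`; (2) there is one of order `2 t` for all `1 ≤ t < 2 ^ (2 ^ (2 ⌊n/2⌋ - 3))`; (3) there is one of
order `2 |G|` for every finite abelian group `G` with four complementary `±1` functions; (4) there are ones of orders
`22` and `46`. -/
theorem result :
    ∀ n : ℕ, 4 ≤ n →
      (∀ ts : List ℕ, ts ≠ [] →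
        (∀ t ∈ ts, t ≤ 2 ^ (n - 2) ∨
          ∃ L : List ℕ, L ≠ [] ∧ L.length ≤ 2 ^ (2 * (n / 2) - 3) ∧ t = (L.map (fun b => 2 ^ b)).sum) →
        HasHadamard n (ts.map (fun t => 2 * t)).prod) ∧
      (∀ t : ℕ, 1 ≤ t → t < 2 ^ 2 ^ (2 * (n / 2) - 3) → HasHadamard n (2 * t)) ∧
      (∀ (G : Type) [AddCommGroup G] [Fintype G] (A B C D : G → ℤ), Complementary A B C D →
        HasHadamard n (2 * Fintype.card G)) ∧
      HasHadamard n 22 ∧ HasHadamard n 46 := by
  intro n hn
  refine ⟨(main2 n hn).1, (main2 n hn).2, ?_, ?_, ?_⟩
  · intro G _ _ A B C D h
    classical
    exact will A B C D h n hn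
  · have := will _ _ _ _ compl11 n hn
    rwa [ZMod.card] at this
  · have := will _ _ _ _ compl23 n hn
    rwa [ZMod.card] at this

end Pool.Agent.Results.MP_afadd1_co.LargeDimensions
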